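import Pool.Agent.Q141.ST.Grid

/-!
# Divisibility of Hilbert series of Solomon-Terao algebras does not imply divisibility of Poincaré
polynomials (Q2)

The arrangement of the six planes `z = 0`, `x = z`, `x = -z`, `x = 2 z`, `y = z`, `y = -z` in `K ^ 3` and
its plane `H = {z = 0}`. With `η = x ^ 2 + y ^ 2 + z ^ 2` the Solomon-Terao ideal is
`(x (x - z) (x + z) (x - 2 z), y (y - z) (y + z), η)`, and the Hilbert series is
`(1 + x) (1 + x + x ^ 2) (1 + x + x ^ 2 + x ^ 3)`, while for the restriction to `H` (two lines) it is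
`(1 + x) ^ 2`, a divisor. The Poincaré polynomials are `(1 + t) (1 + 2 t) (1 + 3 t)` and `(1 + t) ^ 2`.
-/

set_option autoImplicit false

open MvPolynomial Module Pool.Agent.Q141.ST
open scoped Classical

namespace Pool.Agent.Results.MP_1e7c4a_ag.ConverseFails

variable {K : Type} [Field K]

theorem eval_pderiv (x : Fin 3 → K) (i : Fin 3) : eval x (pderiv i (et K)) = 2 * x i := by
  unfold et
  fin_cases i <;> simp [pderiv_X, Derivation.leibniz_pow]

theorem mem_As {w : Fin 3 → K} (hw : w ∈ As K) :
    w = vz K ∨ (∃ a : K, (a = 1 ∨ a = -1 ∨ a = 2) ∧ w = va a) ∨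
      (∃ b : K, (b = 1 ∨ b = -1) ∧ w = vb b) := by
  simp only [As, As', Bs, Finset.mem_insert, Finset.mem_singleton] at hw
  rcases hw with h | h | h | h | h | h
  · exact Or.inl h
  · exact Or.inr (Or.inl ⟨1, by simp, h⟩)
  · exact Or.inr (Or.inl ⟨-1, by simp, h⟩)
  · exact Or.inr (Or.inl ⟨2, by simp, h⟩)
  · exact Or.inr (Or.inr ⟨1, by simp, h⟩)
  · exact Or.inr (Or.inr ⟨-1, by simp, h⟩)

theorem nonDegenerate [CharZero K] (T : Submodule K (Fin 3 → K)) (hT : T ∈ flats ⊤ (As K)) :
    NonDegenerate (et K) T := by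
  obtain ⟨B, hB, rfl⟩ := Finset.mem_image.1 hT
  rw [Finset.mem_powerset] at hB
  intro x hx hv
  have memT : ∀ v : Fin 3 → K, v ∈ (⊤ ⊓ B.inf hyp : Submodule K (Fin 3 → K)) ↔
      ∀ w ∈ B, v ∈ hyp w := by
    intro v
    rw [top_inf_eq, Submodule.mem_finsetInf]
  have hv' : ∀ v : Fin 3 → K, (∀ w ∈ B, v ∈ hyp w) → v 0 * x 0 + v 1 * x 1 + v 2 * x 2 = 0 := by
    intro v h
    have h1 := hv v ((memT v).2 h)
    simp only [eval_pderiv, Fin.sum_univ_three] at h1
    have h2 : (2 : K) * (v 0 * x 0 + v 1 * x 1 + v 2 * x 2) = 0 := by linear_combination h1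
    exact (mul_eq_zero.1 h2).resolve_left two_ne_zero
  have hx' := (memT x).1 hx
  -- test vectors
  have he0 : (∀ a : K, va a ∉ B) → x 0 = 0 := by
    intro h
    have := hv' ![1, 0, 0] (by
      intro w hw
      rcases mem_As (hB hw) with rfl | ⟨a, -, rfl⟩ | ⟨b, -, rfl⟩
      · rw [mem_z]; simp
      · exact absurd hw (h a)
      · rw [mem_b]; simp)
    simpa using this
  have he1 : (∀ b : K, vb b ∉ B) → x 1 = 0 := by
    intro h
    have := hv' ![0, 1, 0] (by
      intro w hw
      rcases mem_As (hB hw) with rfl | ⟨a, -, rfl⟩ | ⟨b, -, rfl⟩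
      · rw [mem_z]; simp
      · rw [mem_a]; simp
      · exact absurd hw (h b))
    simpa using this
  have hfin : x 0 = 0 → x 1 = 0 → x 2 = 0 → x = 0 := by
    intro h0 h1 h2
    funext i
    fin_cases i
    · exact h0
    · exact h1
    · exact h2
  by_cases hz : ∀ v : Fin 3 → K, (∀ w ∈ B, v ∈ hyp w) → v 2 = 0
  · have h2 := hz x hx'
    refine hfin ?_ ?_ h2
    · by_cases h : ∀ a : K, va a ∉ B
      · exact he0 h
      · push Not at h
        obtain ⟨a, ha⟩ := h
        rw [mem_a.1 (hx' _ ha), h2, mul_zero]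
    · by_cases h : ∀ b : K, vb b ∉ B
      · exact he1 h
      · push Not at h
        obtain ⟨b, hb⟩ := h
        rw [mem_b.1 (hx' _ hb), h2, mul_zero]
  · push Not at hz
    obtain ⟨u, hu, hu2⟩ := hz
    have hnz : vz K ∉ B := fun h => hu2 (mem_z.1 (hu _ h))
    have hua : ∀ a a' : K, va a ∈ B → va a' ∈ B → a = a' := by
      intro a a' h h'
      have h1 := mem_a.1 (hu _ h)
      have h2 := mem_a.1 (hu _ h')
      exact mul_right_cancel₀ hu2 (h1.symm.trans h2)
    have hub : ∀ b b' : K, vb b ∈ B → vb b' ∈ B → b = b' := by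
      intro b b' h h'
      have h1 := mem_b.1 (hu _ h)
      have h2 := mem_b.1 (hu _ h')
      exact mul_right_cancel₀ hu2 (h1.symm.trans h2)
    obtain ⟨a, ha, hxa, haB⟩ : ∃ a : K, (a = 0 ∨ a = 1 ∨ a = -1 ∨ a = 2) ∧ x 0 = a * x 2 ∧
        ∀ a' : K, va a' ∈ B → a' = a := by
      by_cases h : ∀ a : K, va a ∉ B
      · exact ⟨0, by simp, by rw [he0 h, zero_mul], fun a' h' => absurd h' (h a')⟩
      · push Not at h
        obtain ⟨a, ha⟩ := h
        refine ⟨a, ?_, mem_a.1 (hx' _ ha), fun a' h' => hua a' a h' ha⟩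
        rcases mem_As (hB ha) with h1 | ⟨a', h1, h2⟩ | ⟨b, -, h2⟩
        · exact absurd h1.symm vz_ne_va
        · rw [va_inj h2]
          exact Or.inr h1
        · exact absurd h2 va_ne_vb
    obtain ⟨b, hb, hxb, hbB⟩ : ∃ b : K, (b = 0 ∨ b = 1 ∨ b = -1) ∧ x 1 = b * x 2 ∧
        ∀ b' : K, vb b' ∈ B → b' = b := by
      by_cases h : ∀ b : K, vb b ∉ B
      · exact ⟨0, by simp, by rw [he1 h, zero_mul], fun b' h' => absurd h' (h b')⟩
      · push Not at h
        obtain ⟨b, hb⟩ := h
        refine ⟨b, ?_, mem_b.1 (hx' _ hb), fun b' h' => hub b' b h' hb⟩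
        rcases mem_As (hB hb) with h1 | ⟨a, -, h2⟩ | ⟨b', h1, h2⟩
        · exact absurd h1.symm vz_ne_vb
        · exact absurd h2.symm va_ne_vb
        · rw [vb_inj h2]
          exact Or.inr h1
    have hw := hv' ![a, b, 1] (by
      intro w hw
      rcases mem_As (hB hw) with rfl | ⟨a', -, rfl⟩ | ⟨b', -, rfl⟩
      · exact absurd hw hnz
      · rw [mem_a, haB a' hw]; simp
      · rw [mem_b, hbB b' hw]; simp)
    simp only [Matrix.cons_val_zero, Matrix.cons_val_one, Matrix.cons_val] at hw
    have h3 : (a ^ 2 + b ^ 2 + 1) * x 2 = 0 := by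
      rw [hxa, hxb] at hw
      linear_combination hw
    have h4 : a ^ 2 + b ^ 2 + 1 ≠ 0 := by
      rcases ha with rfl | rfl | rfl | rfl <;> rcases hb with rfl | rfl | rfl <;> norm_num
    have h5 : x 2 = 0 := (mul_eq_zero.1 h3).resolve_left h4
    exact hfin (by rw [hxa, h5, mul_zero]) (by rw [hxb, h5, mul_zero]) h5

theorem isArrangement [CharZero K] : IsArrangement (As K) := by
  have hxa : ∀ a : K, (![a, 0, 1] : Fin 3 → K) ∈ hyp (va a) := fun a => by rw [mem_a]; simp
  have hxb : ∀ b : K, (![0, b, 1] : Fin 3 → K) ∈ hyp (vb b) := fun b => by rw [mem_b]; simp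
  have k1 : ∀ a : K, hyp (va a) ≠ hyp (vz K) := fun a h => by
    have := hxa a
    rw [h, mem_z] at this
    simp at this
  have k2 : ∀ b : K, hyp (vb b) ≠ hyp (vz K) := fun b h => by
    have := hxb b
    rw [h, mem_z] at this
    simp at this
  have k3 : ∀ a b : K, hyp (va a) ≠ hyp (vb b) := fun a b h => by
    have := y_a a
    rw [h, mem_b] at this
    simp at this
  constructor
  · intro w hw h0
    rcases mem_As hw with rfl | ⟨a, -, rfl⟩ | ⟨b, -, rfl⟩
    · have := congrFun h0 2
      simp [vz] at this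
    · have := congrFun h0 0
      simp [va] at this
    · have := congrFun h0 1
      simp [vb] at this
  · intro w hw w' hw' h
    rcases mem_As hw with rfl | ⟨a, -, rfl⟩ | ⟨b, -, rfl⟩ <;>
      rcases mem_As hw' with rfl | ⟨a', -, rfl⟩ | ⟨b', -, rfl⟩
    · rfl
    · exact absurd h.symm (k1 a')
    · exact absurd h.symm (k2 b')
    · exact absurd h (k1 a)
    · have := hxa a
      rw [h, mem_a] at this
      simp at this
      rw [this]
    · exact absurd h (k3 a b')
    · exact absurd h (k2 b)
    · exact absurd h.symm (k3 a' b)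
    · have := hxb b
      rw [h, mem_b] at this
      simp at this
      rw [this]

theorem form_z : form (vz K) = X 2 := by
  simp [form, Fin.sum_univ_three, vz]

theorem form_a (a : K) : form (va a) = X 0 - C a * X 2 := by
  simp [form, Fin.sum_univ_three, va, sub_eq_add_neg]

theorem form_b (b : K) : form (vb b) = X 1 - C b * X 2 := by
  simp [form, Fin.sum_univ_three, vb, sub_eq_add_neg]

theorem forms_eq : (form '' (As K : Set (Fin 3 → K))) = forms K := by
  simp only [As, As', Bs, Finset.coe_insert, Finset.coe_singleton, Set.image_insert_eq,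
    Set.image_singleton, form_z, form_a, form_b]
  rfl

/-- the inclusion of the plane `z = 0` -/
def φ (K : Type) [Field K] : (Fin 2 → K) →ₗ[K] (Fin 3 → K) :=
  LinearMap.pi ![LinearMap.proj 0, LinearMap.proj 1, 0]

theorem pull_X : pull (φ K) (X 0) = X 0 ∧ pull (φ K) (X 1) = X 1 ∧ pull (φ K) (X 2) = 0 := by
  refine ⟨?_, ?_, ?_⟩ <;> simp [pull, φ, Fin.sum_univ_two]

theorem forms2_eq : (fun a => pull (φ K) (form a)) '' (As' K : Set (Fin 3 → K)) = forms2 K := by
  obtain ⟨h0, h1, h2⟩ := pull_X (K := K)
  have ha : ∀ a : K, pull (φ K) (form (va a)) = X 0 := fun a => by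
    rw [form_a, map_sub, map_mul, h0, h2, mul_zero, sub_zero]
  have hb : ∀ b : K, pull (φ K) (form (vb b)) = X 1 := fun b => by
    rw [form_b, map_sub, map_mul, h1, h2, mul_zero, sub_zero]
  simp only [As', Bs, Finset.coe_insert, Finset.coe_singleton, Set.image_insert_eq,
    Set.image_singleton, ha, hb, forms2]
  simp

theorem pull_et : pull (φ K) (et K) = et2 K := by
  obtain ⟨h0, h1, h2⟩ := pull_X (K := K)
  unfold et et2
  rw [map_add, map_add, map_pow, map_pow, map_pow, h0, h1, h2]
  simp

/-- The converse of Q1 fails: for every algebraically closed field `K` of characteristic zero there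
are a central arrangement `A` in `K ^ 3`, a plane `H` of `A`, a quadratic form `η` which is
non-degenerate on all intersections of planes of `A` and a linear isomorphism `φ` of `K ^ 2` to `H`
such that the Hilbert series of the Solomon-Terao algebra of the restriction (`PH`) divides the one of
`A` (`P`), but the Poincaré polynomial of the restriction (`RH`) does not divide the one of `A`
(`R`). -/
theorem result (K : Type) [Field K] [IsAlgClosed K] [CharZero K] :
    ∃ (A : Finset (Fin 3 → K)) (h : Fin 3 → K) (η : MvPolynomial (Fin 3) K)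
      (φ : (Fin 2 → K) →ₗ[K] (Fin 3 → K)) (P PH R RH : Polynomial ℚ),
      IsArrangement A ∧ h ∈ A ∧ η.IsHomogeneous 2 ∧ (∀ T ∈ flats ⊤ A, NonDegenerate η T) ∧
      Function.Injective φ ∧ LinearMap.range φ = hyp h ∧
      (∀ d, P.coeff d = hilb (stIdeal (form '' (A : Set (Fin 3 → K))) η) d) ∧
      (∀ d, PH.coeff d = hilb (stIdeal ((fun a => pull φ (form a)) ''
        ((A.erase h : Finset (Fin 3 → K)) : Set (Fin 3 → K))) (pull φ η)) d) ∧
      IsPoincare ⊤ A R ∧ IsPoincare (hyp h) (A.erase h) RH ∧ PH ∣ P ∧ ¬ RH ∣ R := by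
  have herase : (As K).erase (vz K) = As' K := by
    unfold As
    exact Finset.erase_insert n0
  refine ⟨As K, vz K, et K, ConverseFails.φ K,
    (1 + Polynomial.X) * (1 + Polynomial.X + Polynomial.X ^ 2) *
      (1 + Polynomial.X + Polynomial.X ^ 2 + Polynomial.X ^ 3), (1 + Polynomial.X) ^ 2,
    (1 + Polynomial.X) * (1 + 2 * Polynomial.X) * (1 + 3 * Polynomial.X), (1 + Polynomial.X) ^ 2,
    isArrangement, Finset.mem_insert_self _ _, hom_et, nonDegenerate, ?_, ?_, ?_, ?_, ?_, ?_, ?_, ?_⟩
  · intro u v huv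
    funext i
    fin_cases i
    · have := congrFun huv 0
      simpa [ConverseFails.φ] using this
    · have := congrFun huv 1
      simpa [ConverseFails.φ] using this
  · ext x
    rw [mem_z]
    constructor
    · rintro ⟨v, rfl⟩
      simp [ConverseFails.φ]
    · intro hx
      refine ⟨![x 0, x 1], ?_⟩
      funext i
      fin_cases i
      · simp [ConverseFails.φ]
      · simp [ConverseFails.φ]
      · simp [ConverseFails.φ, hx]
  · intro d
    rw [forms_eq, stIdeal_forms]
    have h1 := hilb_II (K := K) d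
    change hilb (II K) d + _ = _ at h1
    change _ = ((hilb (II K) d : ℕ) : ℚ)
    have hP : ((1 + Polynomial.X) * (1 + Polynomial.X + Polynomial.X ^ 2) *
      (1 + Polynomial.X + Polynomial.X ^ 2 + Polynomial.X ^ 3) : Polynomial ℚ) =
      1 + 3 * Polynomial.X + 5 * Polynomial.X ^ 2 + 6 * Polynomial.X ^ 3 + 5 * Polynomial.X ^ 4 +
        3 * Polynomial.X ^ 5 + Polynomial.X ^ 6 := by ring
    rw [hP]
    simp only [Polynomial.coeff_add, Polynomial.coeff_ofNat_mul, Polynomial.coeff_one,
      Polynomial.coeff_X, Polynomial.coeff_X_pow]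
    by_cases hd : d < 7
    · interval_cases d
      · have e0 : (idx 0).card = 1 := rfl
        have : hilb (II K) 0 = 1 := by rw [e0] at h1; simpa using h1
        simp [this]
      · have e0 : (idx 1).card = 3 := rfl
        have : hilb (II K) 1 = 3 := by rw [e0] at h1; simpa using h1
        simp [this]
      · have e0 : (idx 2).card = 6 := rfl
        have e1 : (idx (2 - 2)).card = 1 := rfl
        have : hilb (II K) 2 = 5 := by rw [if_pos le_rfl, e1, e0] at h1; omega
        simp [this]
      · have e0 : (idx 3).card = 9 := rfl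
        have e1 : (idx (3 - 2)).card = 3 := rfl
        have : hilb (II K) 3 = 6 := by rw [if_pos (by norm_num), e1, e0] at h1; omega
        simp [this]
      · have e0 : (idx 4).card = 11 := rfl
        have e1 : (idx (4 - 2)).card = 6 := rfl
        have : hilb (II K) 4 = 5 := by rw [if_pos (by norm_num), e1, e0] at h1; omega
        simp [this]
      · have e0 : (idx 5).card = 12 := rfl
        have e1 : (idx (5 - 2)).card = 9 := rfl
        have : hilb (II K) 5 = 3 := by rw [if_pos (by norm_num), e1, e0] at h1; omega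
        simp [this]
      · have e0 : (idx 6).card = 12 := rfl
        have e1 : (idx (6 - 2)).card = 11 := rfl
        have : hilb (II K) 6 = 1 := by rw [if_pos (by norm_num), e1, e0] at h1; omega
        simp [this]
    · have hall : ∀ e, 5 ≤ e → (idx e).card = 12 := by
        intro e he
        have : idx e = Finset.univ := by
          apply Finset.filter_true_of_mem
          intro p _
          have := p.1.2
          have := p.2.2
          omega
        rw [this]
        rfl
      rw [if_pos (by omega), hall d (by omega), hall (d - 2) (by omega)] at h1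
      have h2 : hilb (II K) d = 0 := by omega
      rw [h2]
      rw [if_neg (by omega), if_neg (by omega), if_neg (by omega), if_neg (by omega),
        if_neg (by omega), if_neg (by omega), if_neg (by omega)]
      simp
  · intro d
    rw [herase, forms2_eq, pull_et, stIdeal_forms2, hilb_I2]
    have hP : ((1 + Polynomial.X) ^ 2 : Polynomial ℚ) = 1 + 2 * Polynomial.X + Polynomial.X ^ 2 := by
      ring
    rw [hP]
    simp only [Polynomial.coeff_add, Polynomial.coeff_ofNat_mul, Polynomial.coeff_one,
      Polynomial.coeff_X, Polynomial.coeff_X_pow]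
    by_cases hd : d < 3
    · interval_cases d
      · rw [show (idx2 0).card = 1 from rfl]; simp
      · rw [show (idx2 1).card = 2 from rfl]; simp
      · rw [show (idx2 2).card = 1 from rfl]; simp
    · have : idx2 d = ∅ := by
        apply Finset.filter_false_of_mem
        intro p _
        have := p.1.2
        have := p.2.2
        omega
      rw [this, if_neg (by omega), if_neg (by omega), if_neg (by omega)]
      simp
  · rw [← W_all (K := K)]
    apply isPoincare_W
    intro w hw hle
    have htop : ∀ x : Fin 3 → K, x ∈ (⊤ : Submodule K (Fin 3 → K)) := fun x => Submodule.mem_top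
    rcases mem_As hw with rfl | ⟨a, -, rfl⟩ | ⟨b, -, rfl⟩
    · have := hle (htop ![0, 0, 1])
      rw [mem_z] at this
      simp at this
    · have := hle (htop ![1, 0, 0])
      rw [mem_a] at this
      simp at this
    · have := hle (htop ![0, 1, 0])
      rw [mem_b] at this
      simp at this
  · rw [herase, ← W_z (K := K)]
    apply isPoincare_W
    intro w hw hle
    rcases mem_As (show w ∈ As K from Finset.mem_insert_of_mem hw) with rfl | ⟨a, -, rfl⟩ | ⟨b, -, rfl⟩
    · exact n0 hw
    · have := hle (show (![1, 0, 0] : Fin 3 → K) ∈ hyp (vz K) by rw [mem_z]; simp)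
      rw [mem_a] at this
      simp at this
    · have := hle (show (![0, 1, 0] : Fin 3 → K) ∈ hyp (vz K) by rw [mem_z]; simp)
      rw [mem_b] at this
      simp at this
  · exact ⟨(1 + Polynomial.X ^ 2) * (1 + Polynomial.X + Polynomial.X ^ 2), by ring⟩
  · rintro ⟨q, hq⟩
    have h1 : (1 + Polynomial.X : Polynomial ℚ) ≠ 0 := by
      intro h0
      have := congrArg (Polynomial.eval 0) h0
      simp at this
    have h2 : (1 + 2 * Polynomial.X) * (1 + 3 * Polynomial.X) =
        (1 + Polynomial.X) * (q : Polynomial ℚ) := by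
      apply mul_left_cancel₀ h1
      linear_combination hq
    have h3 := congrArg (Polynomial.eval (-1)) h2
    simp at h3
    norm_num at h3

end Pool.Agent.Results.MP_1e7c4a_ag.ConverseFails
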